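import Pool.Agent.RS.StmtsT

set_option autoImplicit false

namespace Pool.Agent.RS.H49

open MvPolynomial

variable {E : Type} [Field E]

theorem gm_eq {F G : ℕ → MvPolynomial ℕ E} :
    gm E F = gm E G ↔ ∀ᶠ n in (uf : Filter ℕ), F n = G n := Filter.Germ.coe_eq

theorem ev_lt (l : ℕ) : ∀ᶠ n in (uf : Filter ℕ), l < n :=
  (Filter.eventually_gt_atTop l).filter_mono Nat.hyperfilter_le_atTop

/-- equality of elements of `BG` given by sequences -/
theorem bg_eq {f g : BG E} {F G : ℕ → MvPolynomial ℕ E} (hf : (f : AS E) = gm E F)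
    (hg : (g : AS E) = gm E G) (l : ℕ) (h : ∀ n, l < n → F n = G n) : f = g := by
  apply Subtype.ext
  rw [hf, hg, gm_eq]
  exact (ev_lt l).mono h

theorem bg_ne {f g : BG E} {F G : ℕ → MvPolynomial ℕ E} (hf : (f : AS E) = gm E F)
    (hg : (g : AS E) = gm E G) (l : ℕ) (h : ∀ n, l < n → F n ≠ G n) : f ≠ g := by
  intro heq
  rw [heq, hg, gm_eq] at hf
  obtain ⟨n, hn1, hn2⟩ := (hf.and (ev_lt l)).exists
  exact h n hn2 hn1.symm

theorem coe_mul' {f g : BG E} {F G : ℕ → MvPolynomial ℕ E} (hf : (f : AS E) = gm E F)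
    (hg : (g : AS E) = gm E G) : ((f * g : BG E) : AS E) = gm E (fun n => F n * G n) := by
  rw [Subalgebra.coe_mul, hf, hg]
  rfl

theorem coe_add' {f g : BG E} {F G : ℕ → MvPolynomial ℕ E} (hf : (f : AS E) = gm E F)
    (hg : (g : AS E) = gm E G) : ((f + g : BG E) : AS E) = gm E (fun n => F n + G n) := by
  rw [Subalgebra.coe_add, hf, hg]
  rfl

theorem coe_pow' {f : BG E} {F : ℕ → MvPolynomial ℕ E} (hf : (f : AS E) = gm E F) (i : ℕ) :
    ((f ^ i : BG E) : AS E) = gm E (fun n => F n ^ i) := by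
  induction i with
  | zero =>
    rw [pow_zero]
    simp only [pow_zero]
    rfl
  | succ i ih =>
    rw [pow_succ, coe_mul' ih hf]
    rfl

theorem coe_sum' {f : ℕ → BG E} {F : ℕ → ℕ → MvPolynomial ℕ E} (s : Finset ℕ)
    (hf : ∀ i, (f i : AS E) = gm E (F i)) :
    ((∑ i ∈ s, f i : BG E) : AS E) = gm E (fun n => ∑ i ∈ s, F i n) := by
  induction s using Finset.induction_on with
  | empty =>
    simp only [Finset.sum_empty]
    rfl
  | insert a s ha ih =>
    rw [Finset.sum_insert ha, coe_add' (hf a) ih]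
    congr 1
    funext n
    rw [Finset.sum_insert ha]

theorem bgex (Q : ℕ → ℕ) (F : ℕ → ℕ → MvPolynomial ℕ E)
    (hF : ∀ n l, l < n → (F n l).totalDegree ≤ Q l) :
    ∃ f : ℕ → BG E, ∀ l, (f l : AS E) = gm E (fun n => if l < n then F n l else 0) := by
  refine ⟨fun l => bg E (fun n => if l < n then F n l else 0) (Q l) ?_, fun l => rfl⟩
  intro n
  split_ifs with h
  · exact hF n l h
  · rw [totalDegree_zero]
    exact Nat.zero_le _

/-- membership in `PG` -/
theorem mem_PG [CharZero E] (hgmm : GmmStmt) (j : ℕ → ℕ → ℕ) (F : ℕ → MvPolynomial ℕ E)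
    (f : BG E) (hf : (f : AS E) = gm E F) (l l₀ : ℕ) (h : ∀ n, l₀ < n → F n ∈ Pj E (j n) l) :
    f ∈ PG E (fun i n => j n i) l :=
  (hgmm E j F f hf l).2 ((ev_lt l₀).mono h)

theorem mem_Pj {j : ℕ → ℕ} {l : ℕ} {f : MvPolynomial ℕ E} :
    f ∈ Pj E j l ↔ ∀ i ∈ f.vars, ∀ m < l, i ≠ j m := by
  unfold Pj PJ
  rw [Subalgebra.mem_toSubring, mem_supported]
  constructor
  · intro h i hi m hm hij
    have h1 := h (Finset.mem_coe.2 hi)
    apply h1
    rw [hij]
    exact Finset.mem_image_of_mem _ (Finset.mem_range.2 hm)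
  · intro h i hi hmem
    obtain ⟨m, hm, hij⟩ := Finset.mem_image.1 hmem
    exact h i (Finset.mem_coe.1 hi) m (Finset.mem_range.1 hm) hij.symm

theorem gch (hgmm : GmmStmt) (htxc : TxcStmt) : GchStmt := by
  intro E _ _ Q j q lc e ρ α β hch r x hx
  -- the data of the chains
  have hd : ∀ n l, l < n → q n l ∈ Pj E (j n) l ∧ α n l ∈ Pj E (j n) l ∧
    β n l ∈ Pj E (j n) l ∧ ρ n l ∈ Pj E (j n) (l + 1) ∧ ρ n l ≠ 0 ∧
    ρ n l = α n l * q n l + β n l * e n l ∧
    e n (l + 1) = lc n l * ρ n l ∧ j n l ∈ (q n l).vars ∧ lc n l = lcx (j n l) (q n l) ∧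
    (q n l).totalDegree ≤ Q l ∧ (e n l).totalDegree ≤ Q l ∧ (ρ n l).totalDegree ≤ Q l ∧
    (α n l).totalDegree ≤ Q l ∧ (β n l).totalDegree ≤ Q l := fun n l h => (hch n).2.2 l h
  have hlc : ∀ n l, l < n → (lc n l).totalDegree ≤ Q l := by
    intro n l h
    obtain ⟨-, -, -, -, -, -, -, -, h9, h10, -⟩ := hd n l h
    rw [h9]
    exact ((htxc E (j n l) (q n l)).1 _).trans h10
  obtain ⟨q', hq'⟩ := bgex Q q (fun n l h => (hd n l h).2.2.2.2.2.2.2.2.2.1)
  obtain ⟨e', he'⟩ := bgex Q e (fun n l h => (hd n l h).2.2.2.2.2.2.2.2.2.2.1)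
  obtain ⟨ρ', hρ'⟩ := bgex Q ρ (fun n l h => (hd n l h).2.2.2.2.2.2.2.2.2.2.2.1)
  obtain ⟨α', hα'⟩ := bgex Q α (fun n l h => (hd n l h).2.2.2.2.2.2.2.2.2.2.2.2.1)
  obtain ⟨β', hβ'⟩ := bgex Q β (fun n l h => (hd n l h).2.2.2.2.2.2.2.2.2.2.2.2.2)
  obtain ⟨lc', hlc'⟩ := bgex Q lc hlc
  have hzero : ((0 : BG E) : AS E) = gm E (fun _ => 0) := rfl
  have hone : ((1 : BG E) : AS E) = gm E (fun _ => 1) := rfl
  have hqne : ∀ n l, l < n → q n l ≠ 0 := by
    intro n l h h0
    obtain ⟨-, -, -, -, -, -, -, h8, -⟩ := hd n l h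
    rw [h0, vars_0] at h8
    exact absurd h8 (Finset.notMem_empty _)
  refine ⟨q', lc', e', ρ', α', β', hq', ?_, ?_, ?_⟩
  · intro l _
    apply bg_ne (hq' l) hzero l
    intro n hn
    simp only [if_pos hn]
    exact hqne n l hn
  · apply bg_eq (he' 0) hone 0
    intro n hn
    simp only [if_pos hn]
    exact (hch n).2.1
  · intro l _
    have hmem : ∀ (F : ℕ → ℕ → MvPolynomial ℕ E) (f : BG E) (m : ℕ),
        (f : AS E) = gm E (fun n => if l < n then F n l else 0) →
        (∀ n, l < n → F n l ∈ Pj E (j n) m) → f ∈ PG E (fun i n => j n i) m := by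
      intro F f m hf h
      apply mem_PG hgmm j _ f hf m l
      intro n hn
      rw [if_pos hn]
      exact h n hn
    refine ⟨hmem q (q' l) l (hq' l) fun n h => (hd n l h).1,
      hmem α (α' l) l (hα' l) fun n h => (hd n l h).2.1,
      hmem β (β' l) l (hβ' l) fun n h => (hd n l h).2.2.1,
      hmem ρ (ρ' l) (l + 1) (hρ' l) fun n h => (hd n l h).2.2.2.1, ?_, ?_, ?_, ?_, ?_⟩
    · apply bg_ne (hρ' l) hzero l
      intro n hn
      simp only [if_pos hn]
      exact (hd n l hn).2.2.2.2.1
    · apply bg_eq (hρ' l) (coe_add' (coe_mul' (hα' l) (hq' l)) (coe_mul' (hβ' l) (he' l))) l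
      intro n hn
      simp only [if_pos hn]
      exact (hd n l hn).2.2.2.2.2.1
    · apply bg_eq (he' (l + 1)) (coe_mul' (hlc' l) (hρ' l)) (l + 1)
      intro n hn
      have hn' : l < n := by omega
      simp only [if_pos hn, if_pos hn']
      exact (hd n l hn').2.2.2.2.2.2.1
    · apply bg_ne (hlc' l) hzero l
      intro n hn
      simp only [if_pos hn]
      rw [(hd n l hn).2.2.2.2.2.2.2.2.1]
      unfold lcx
      rw [Ne, Polynomial.leadingCoeff_eq_zero]
      intro h0
      apply hqne n l hn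
      apply toX_injective (j n l)
      rw [h0, map_zero]
    · -- the polynomial
      have hdeg : ∀ n, l < n → ∀ i, ((toX (j n l) (q n l)).coeff i).totalDegree ≤ Q l := by
        intro n hn i
        exact ((htxc E (j n l) (q n l)).1 i).trans (hd n l hn).2.2.2.2.2.2.2.2.2.1
      obtain ⟨c, hc⟩ : ∃ c : ℕ → BG E, ∀ i, (c i : AS E) =
          gm E (fun n => if l < n then (toX (j n l) (q n l)).coeff i else 0) := by
        refine ⟨fun i => bg E (fun n => if l < n then (toX (j n l) (q n l)).coeff i else 0)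
          (Q l) ?_, fun i => rfl⟩
        intro n
        split_ifs with h
        · exact hdeg n h i
        · rw [totalDegree_zero]
          exact Nat.zero_le _
      have hnd : ∀ n, l < n → (toX (j n l) (q n l)).natDegree ≤ Q l := by
        intro n hn
        exact ((htxc E (j n l) (q n l)).2.2.1).trans (hd n l hn).2.2.2.2.2.2.2.2.2.1
      obtain ⟨δ, hδ, hev⟩ : ∃ δ ∈ Finset.Iic (Q l), ∀ᶠ n in (uf : Filter ℕ),
          (toX (j n l) (q n l)).natDegree = δ := by
        have h1 := Ultrafilter.eventually_exists_mem_iff (f := (uf : Ultrafilter ℕ))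
          (P := fun δ n => (toX (j n l) (q n l)).natDegree = δ)
          (Finset.finite_toSet (Finset.Iic (Q l)))
        have h2 : ∀ᶠ n in (uf : Filter ℕ), ∃ a ∈ (Finset.Iic (Q l) : Set ℕ),
            (toX (j n l) (q n l)).natDegree = a := by
          refine (ev_lt l).mono fun n hn => ?_
          exact ⟨_, Finset.mem_coe.2 (Finset.mem_Iic.2 (hnd n hn)), rfl⟩
        obtain ⟨a, ha, ha'⟩ := h1.1 h2
        exact ⟨a, Finset.mem_coe.1 ha, ha'⟩
      have hδ' : δ ≤ Q l := Finset.mem_Iic.1 hδ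
      obtain ⟨p, hp⟩ : ∃ p : Polynomial (BG E),
          p = ∑ i ∈ Finset.range (Q l + 1), Polynomial.monomial i (c i) := ⟨_, rfl⟩
      have hcoeff : ∀ i, p.coeff i = if i ≤ Q l then c i else 0 := by
        intro i
        rw [hp, Polynomial.finsetSum_coeff]
        simp only [Polynomial.coeff_monomial]
        rw [Finset.sum_ite_eq' (Finset.range (Q l + 1)) i]
        simp only [Finset.mem_range, Nat.lt_succ_iff]
      have hcmem : ∀ i, c i ∈ PG E (fun i n => j n i) (l + 1) := by
        intro i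
        apply mem_PG hgmm j _ (c i) (hc i) (l + 1) l
        intro n hn
        rw [if_pos hn, mem_Pj]
        intro v hv m hm
        have h1 := (htxc E (j n l) (q n l)).2.1 i hv
        rw [Finset.mem_erase] at h1
        rcases Nat.lt_succ_iff_lt_or_eq.1 hm with h2 | h2
        · exact mem_Pj.1 (hd n l hn).1 v h1.2 m h2
        · rw [h2]
          exact h1.1
      have hcδ : c δ = lc' l := by
        apply Subtype.ext
        rw [hc, hlc', gm_eq]
        filter_upwards [hev, ev_lt l] with n h1 h2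
        rw [if_pos h2, if_pos h2, (hd n l h2).2.2.2.2.2.2.2.2.1]
        unfold lcx
        rw [Polynomial.leadingCoeff, h1]
      have hlcne : lc' l ≠ 0 := by
        apply bg_ne (hlc' l) hzero l
        intro n hn
        simp only [if_pos hn]
        rw [(hd n l hn).2.2.2.2.2.2.2.2.1]
        unfold lcx
        rw [Ne, Polynomial.leadingCoeff_eq_zero]
        intro h0
        apply hqne n l hn
        apply toX_injective (j n l)
        rw [h0, map_zero]
      have hδpos : 0 < δ := by
        obtain ⟨n, h1, h2⟩ := (hev.and (ev_lt l)).exists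
        rw [← h1]
        exact (htxc E (j n l) (q n l)).2.2.2.1.2 (hd n l h2).2.2.2.2.2.2.2.1
      have hnatdeg : p.natDegree = δ := by
        apply Polynomial.natDegree_eq_of_le_of_coeff_ne_zero
        · rw [Polynomial.natDegree_le_iff_coeff_eq_zero]
          intro i hi
          rw [hcoeff]
          split_ifs with h
          · apply Subtype.ext
            rw [hc, hzero, gm_eq]
            filter_upwards [hev, ev_lt l] with n h1 h2
            rw [if_pos h2]
            apply Polynomial.coeff_eq_zero_of_natDegree_lt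
            rw [h1]
            exact hi
          · rfl
        · rw [hcoeff, if_pos hδ', hcδ]
          exact hlcne
      refine ⟨p, ?_, ?_, ?_, ?_⟩
      · intro i
        rw [hcoeff]
        split_ifs
        · exact hcmem i
        · exact zero_mem _
      · rw [hnatdeg]
        exact hδpos
      · rw [Polynomial.leadingCoeff, hnatdeg, hcoeff, if_pos hδ', hcδ]
      · rw [hp, Polynomial.eval_finsetSum]
        simp only [Polynomial.eval_monomial]
        have h1 : ∀ i, ((c i * x l ^ i : BG E) : AS E) = gm E (fun n =>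
            (if l < n then (toX (j n l) (q n l)).coeff i else 0) * X (j n l) ^ i) := by
          intro i
          exact coe_mul' (hc i) (coe_pow' (hx l) i)
        apply bg_eq (coe_sum' _ h1) (hq' l) l
        intro n hn
        simp only [if_pos hn]
        conv_rhs => rw [← eval_toX (j n l) (q n l)]
        rw [Polynomial.eval_eq_sum_range' (Nat.lt_succ_iff.2 (hnd n hn))]

end Pool.Agent.RS.H49
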