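import Pool.Agent.RS.StmtsG

set_option autoImplicit false

namespace Pool.Agent.RS.H49

open MvPolynomial

theorem prod_deg {ρ d : ℕ} {E : Type} [Field E] (g : Fin ρ → MvPolynomial ℕ E)
    (hg : ∀ l, (g l).totalDegree ≤ d) : (∏ l, g l).totalDegree ≤ ρ * d := by
  refine (totalDegree_finsetProd _ _).trans ?_
  refine (Finset.sum_le_card_nsmul _ _ d fun l _ => hg l).trans ?_
  rw [Finset.card_univ, Fintype.card_fin, smul_eq_mul]

theorem jdt (hlde : LdeStmt) : JdtStmt := by
  intro E _ ρ d N f j hf hd
  refine ⟨?_, fun t => ⟨?_, ?_, ?_⟩⟩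
  · rw [Matrix.det_apply', map_sum]
    unfold total
    rw [Fintype.sum_prod_type, Finset.mul_sum]
    apply Finset.sum_congr rfl
    intro σ _
    rw [map_mul, map_prod]
    have h1 : ∀ l : Fin ρ, io E ((Matrix.of fun i l => pderiv (j i) (∏ v, f l v)) (σ l) l) =
        io E (∏ v, f l v) * ∑ v, io E (pderiv (j (σ l)) (f l v)) / io E (f l v) := by
      intro l
      rw [Matrix.of_apply]
      exact hlde E (N l) (j (σ l)) (f l) (hf l)
    simp only [h1]
    rw [Finset.prod_mul_distrib, ← map_prod, Finset.prod_univ_sum, Fintype.piFinset_univ]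
    have h2 : ∀ x : (∀ l : Fin ρ, Fin (N l)), io E (jNum N f j (σ, x)) / io E (jDen N f (σ, x)) =
        io E ((Equiv.Perm.sign σ : ℤ) : MvPolynomial ℕ E) *
          ∏ l, io E (pderiv (j (σ l)) (f l (x l))) / io E (f l (x l)) := by
      intro x
      unfold jNum jDen
      rw [map_mul, map_prod, map_prod, Finset.prod_div_distrib, mul_div_assoc]
    simp only [h2]
    rw [← Finset.mul_sum]
    ring
  · unfold jDen
    exact Finset.prod_ne_zero_iff.2 fun l _ => hf l _
  · unfold jNum
    refine (totalDegree_mul _ _).trans ?_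
    have h1 : (((Equiv.Perm.sign t.1 : ℤ)) : MvPolynomial ℕ E).totalDegree = 0 := by
      rcases Int.units_eq_one_or (Equiv.Perm.sign t.1) with h | h
      · rw [h]
        simp
      · rw [h]
        simp
    rw [h1, zero_add]
    exact prod_deg _ fun l => (totalDegree_pderiv_le E _ _).trans (hd l _)
  · unfold jDen
    exact prod_deg _ fun l => hd l _

end Pool.Agent.RS.H49
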