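import Pool.Agent.RS.StmtsT

set_option autoImplicit false

namespace Pool.Agent.RS.H49

open MvPolynomial

/-- the lift of a derivation along `aeval g` -/
theorem aeval_mkDer {k B Y : Type} [Field k] [CommRing B] [Algebra k B] (g : Y → B)
    (d : Derivation k B B) (Dy : Y → MvPolynomial Y k) (hDy : ∀ y, aeval g (Dy y) = d (g y))
    (P : MvPolynomial Y k) : aeval g (mkDerivation k Dy P) = d (aeval g P) := by
  induction P using MvPolynomial.induction_on with
  | C a =>
    rw [derivation_C, map_zero, aeval_C, Derivation.map_algebraMap]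
  | add p q hp hq =>
    rw [map_add, map_add, map_add, map_add, hp, hq]
  | mul_X p i hp =>
    rw [Derivation.leibniz, mkDerivation_X, map_mul, Derivation.leibniz, aeval_X, map_add,
      smul_eq_mul, smul_eq_mul, smul_eq_mul, smul_eq_mul, map_mul, map_mul, aeval_X, hp, hDy]

theorem mkDer_weight {k Y : Type} [Field k] (w : Y → ℕ) (hw : ∀ y, 0 < w y)
    (Dy : Y → MvPolynomial Y k) (hDy : ∀ y, IsWeightedHomogeneous w (Dy y) (w y - 1)) (n : ℕ)
    (P : MvPolynomial Y k) (hP : IsWeightedHomogeneous w P (n + 1)) :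
    IsWeightedHomogeneous w (mkDerivation k Dy P) n := by
  rw [P.as_sum, map_sum]
  apply IsWeightedHomogeneous.sum
  intro m hm
  have hmw : Finsupp.weight w m = n + 1 := hP (mem_support_iff.1 hm)
  rw [mkDerivation_monomial, ← C_mul']
  apply IsWeightedHomogeneous.C_mul
  unfold Finsupp.sum
  apply IsWeightedHomogeneous.sum
  intro y hy
  have hy0 : m y ≠ 0 := Finsupp.mem_support_iff.1 hy
  have h1 := Finsupp.weight_sub_single_add (w := w) hy0
  have h2 : IsWeightedHomogeneous w (monomial (m - Finsupp.single y 1) ((m y : ℕ) : k))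
      (n + 1 - w y) := by
    apply isWeightedHomogeneous_monomial
    omega
  have h3 := h2.mul (hDy y)
  have h4 : n + 1 - w y + (w y - 1) = n := by
    have := hw y
    omega
  rw [h4] at h3
  exact h3

theorem lft (hhom : HomStmt) : LftStmt := by
  intro k B _ _ _ gr Y w g d hgr hmin hd
  obtain ⟨-, h2, -⟩ := hhom k B gr Y w g hgr hmin
  have hw : ∀ y, 0 < w y := fun y => (hmin.1 y).1
  have h3 : ∀ y, ∃ P : MvPolynomial Y k, IsWeightedHomogeneous w P (w y - 1) ∧
      aeval g P = d (g y) := by
    intro y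
    apply h2
    apply hd
    have := (hmin.1 y).2
    rwa [Nat.sub_add_cancel (hw y)]
  choose Dy hDy1 hDy2 using h3
  refine ⟨mkDerivation k Dy, aeval_mkDer g d Dy hDy2, ?_, mkDer_weight w hw Dy hDy1⟩
  intro y
  rw [mkDerivation_X]
  exact hDy1 y

end Pool.Agent.RS.H49
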