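import Pool.Agent.RS.StmtsG

set_option autoImplicit false

namespace Pool.Agent.RS.H49

open MvPolynomial

theorem spe (hrss : RssStmt) (hfai : FaiStmt) (hjdt : JdtStmt) (hphb : PhbStmt)
    (hnmt : NmtStmt) : SpeStmt := by
  classical
  intro E _ _ k d
  obtain ⟨r₀, Δ₀, hrs⟩ := hrss E (k * d)
  refine ⟨r₀ + k, max Δ₀ d, ?_⟩
  intro n F hF hF0
  obtain ⟨m, T, C, hT, hk, hFC⟩ := hF
  choose N f hf hTf using hT
  obtain ⟨ρ, s, j, hρ, hdet, hfaith⟩ := hfai E m k T hk
  -- the factors are not zero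
  have hT0 : ∀ l, T (s l) ≠ 0 := by
    intro l h
    apply hdet
    apply Matrix.det_eq_zero_of_column_eq_zero l
    intro i
    rw [Matrix.of_apply, h, map_zero]
  have hf0 : ∀ l v, f (s l) v ≠ 0 := by
    intro l v h
    apply hT0 l
    rw [hTf]
    exact Finset.prod_eq_zero (Finset.mem_univ v) h
  obtain ⟨hj1, hj2⟩ := hjdt E ρ d (fun l => N (s l)) (fun l v => f (s l) v) j hf0
    (fun l v => (hf (s l) v).1)
  obtain ⟨a, ha⟩ : ∃ a, a = jNum (fun l => N (s l)) (fun l v => f (s l) v) j := ⟨_, rfl⟩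
  obtain ⟨b, hb⟩ : ∃ b, b = jDen (fun l => N (s l)) (fun l v => f (s l) v) := ⟨_, rfl⟩
  rw [← ha, ← hb] at hj1
  rw [← ha, ← hb] at hj2
  obtain ⟨-, -, hn3⟩ := hnmt (JIdx fun l => N (s l))
  obtain ⟨htot, hiff⟩ := hn3 E a b (fun t => (hj2 t).1)
  obtain ⟨De, hDe⟩ : ∃ De, De = (Matrix.of fun i l => pderiv (j i) (T (s l))).det := ⟨_, rfl⟩
  have hDe' : De = (Matrix.of fun i l => pderiv (j i) (∏ v, f (s l) v)).det := by
    rw [hDe]
    congr 1
    ext i l
    rw [Matrix.of_apply, Matrix.of_apply, hTf]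
  rw [← hDe] at hdet
  rw [← hDe'] at hj1
  have hio : Function.Injective (io E) := io_injective
  have hioDe : io E De ≠ 0 := by
    intro h
    rw [← map_zero (io E)] at h
    exact hdet (hio h)
  have htot0 : total a b ≠ 0 := by
    intro h
    rw [h, mul_zero] at hj1
    exact hioDe hj1
  have hnum0 : numer a b ≠ 0 := hiff.1 htot0
  have hbprod : ∏ t, b t ≠ 0 := Finset.prod_ne_zero_iff.2 fun t _ => (hj2 t).1
  have hiob : io E (∏ t, b t) ≠ 0 := by
    intro h
    rw [← map_zero (io E)] at h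
    exact hbprod (hio h)
  -- the identity in the ring of polynomials
  have hid : De * ∏ t, b t = (∏ l, ∏ v, f (s l) v) * numer a b := by
    apply hio
    rw [map_mul, map_mul, hj1, htot, mul_assoc, div_mul_cancel₀ _ hiob]
  obtain ⟨J₀, H₀, hJ₀, hH₀, hζ₀⟩ := hrs (JIdx fun l => N (s l)) a b (fun t => ⟨(hj2 t).1,
    (hj2 t).2.1.trans (Nat.mul_le_mul_right d hρ), (hj2 t).2.2.trans (Nat.mul_le_mul_right d hρ)⟩)
    hnum0
  refine ⟨J₀ ∪ Finset.univ.image j,
    H₀ ∪ (Finset.univ.biUnion fun l : Fin ρ => Finset.univ.image fun v : Fin (N (s l)) =>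
      f (s l) v), ?_, ?_, ?_⟩
  · refine (Finset.card_union_le _ _).trans ?_
    refine Nat.add_le_add hJ₀ ?_
    refine Finset.card_image_le.trans ?_
    rw [Finset.card_univ, Fintype.card_fin]
    exact hρ
  · intro h hh
    rcases Finset.mem_union.1 hh with h1 | h1
    · exact ⟨(hH₀ h h1).1, (hH₀ h h1).2.trans (le_max_left _ _)⟩
    · obtain ⟨l, -, h2⟩ := Finset.mem_biUnion.1 h1
      obtain ⟨v, -, rfl⟩ := Finset.mem_image.1 h2
      exact ⟨hf0 l v, (hf (s l) v).1.trans (le_max_right _ _)⟩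
  · intro ζ hζ
    obtain ⟨J, hJ⟩ : ∃ J, J = J₀ ∪ Finset.univ.image j := ⟨_, rfl⟩
    rw [← hJ]
    have hJ₀J : J₀ ⊆ J := by
      rw [hJ]
      exact Finset.subset_union_left
    have hjJ : ∀ i, j i ∈ J := by
      intro i
      rw [hJ]
      exact Finset.mem_union_right _ (Finset.mem_image_of_mem _ (Finset.mem_univ i))
    have hnumΦ : Phi J ζ (numer a b) ≠ 0 := by
      intro h
      have h1 := (hphb E J₀ ζ (numer a b)).2.2.1 J hJ₀J
      rw [h, map_zero] at h1
      exact hζ₀ ζ (fun h hh => hζ h (Finset.mem_union_left _ hh)) h1.symm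
    have hfΦ : ∀ l v, Phi J ζ (f (s l) v) ≠ 0 := by
      intro l v h
      have h1 := (hphb E J ζ (f (s l) v)).1
      rw [h, map_zero] at h1
      refine hζ (f (s l) v) (Finset.mem_union_right _ ?_) h1.symm
      exact Finset.mem_biUnion.2 ⟨l, Finset.mem_univ l,
        Finset.mem_image_of_mem _ (Finset.mem_univ v)⟩
    have hDeΦ : Phi J ζ De ≠ 0 := by
      intro h
      have h1 := congrArg (Phi J ζ) hid
      rw [map_mul, h, zero_mul, map_mul] at h1
      have h2 : Phi J ζ (∏ l, ∏ v, f (s l) v) ≠ 0 := by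
        rw [map_prod]
        refine Finset.prod_ne_zero_iff.2 fun l _ => ?_
        rw [map_prod]
        exact Finset.prod_ne_zero_iff.2 fun v _ => hfΦ l v
      exact mul_ne_zero h2 hnumΦ h1.symm
    rw [hFC]
    apply hfaith (Phi J ζ) C
    · have h1 : (Matrix.of fun i l => pderiv (j i) (Phi J ζ (T (s l)))).det = Phi J ζ De := by
        rw [hDe, AlgHom.map_det]
        congr 1
        ext i l : 2
        rw [Matrix.of_apply, (hphb E J ζ (T (s l))).2.2.2 (j i) (hjJ i)]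
        rfl
      rw [h1]
      exact hDeΦ
    · rw [← hFC]
      exact hF0

end Pool.Agent.RS.H49
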